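import Pool.Agent.Y608.Sel.Main

/-!
# Arbitrary powers and the selection principle `S_fin(D_Ω, D_Ω)`

The starting result `PowersFin` treats the finite powers. Here the index set `I` is arbitrary:

* `S_fin(D_Ω, D_Ω)` is preserved by finite powers, and by all powers `X ^ I`, if and only if there is no
  free Suslin tree;
* if there is a free Suslin tree, one Tychonoff space `X` with `S_fin(D_Ω, D_Ω)` has no power `X ^ I` with
  `S_fin(D_Ω, D_Ω)`, for any index set `I` with at least two elements;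
* for a single space `X` with `S_fin(D_Ω, D_Ω)`: one power `X ^ I`, where `I` has at least two elements,
  has `S_fin(D_Ω, D_Ω)` if and only if all powers have it, if and only if `X²` is ccc;
* for nonempty `X` and infinite `I` the principle `S_fin(D, D)` of `X ^ I` is equivalent to
  `S_fin(D_Ω, D_Ω)` of `X` together with the countable chain condition of `X²`, and to `S_fin(D, D)` of all
  finite powers of `X`.
-/

set_option autoImplicit false

namespace Pool.Agent.Results.MP_9098dd_gt.AllPowersFin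

open Set Pool.Agent.Helper63.Pow Pool.Agent.Y608.Sel

universe u v

/-- (1) `S_fin(D_Ω, D_Ω)` is preserved by finite powers if and only if there is no free Suslin tree.
(2) The same for arbitrary powers. (3) A free Suslin tree gives a Tychonoff space `X` satisfying
`S_fin(D_Ω, D_Ω)` such that no power `X ^ I`, where `I` has at least two elements, satisfies
`S_fin(D_Ω, D_Ω)`. (4) Let `X` satisfy `S_fin(D_Ω, D_Ω)`. If `X²` is ccc, all powers of `X` satisfy it; if
some power `X ^ I`, where `I` has at least two elements, satisfies `S_fin(D_Ω, D_Ω)`, then `X²` is ccc.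
(5) For nonempty `X` and infinite `I`, `X ^ I` satisfies `S_fin(D, D)` if and only if `X` satisfies
`S_fin(D_Ω, D_Ω)` and `X²` is ccc, if and only if all finite powers of `X` satisfy `S_fin(D, D)`. -/
theorem result :
    ((∀ (X : Type u) [TopologicalSpace X], Sfin (DOmega X) (DOmega X) →
        ∀ k : ℕ, 1 ≤ k → Sfin (DOmega (Fin k → X)) (DOmega (Fin k → X))) ↔
      ¬ ∃ (T : Type u) (_ : PartialOrder T), IsFreeSuslinTree T) ∧
    ((∀ (X : Type u) [TopologicalSpace X], Sfin (DOmega X) (DOmega X) →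
        ∀ I : Type v, Sfin (DOmega (I → X)) (DOmega (I → X))) ↔
      ¬ ∃ (T : Type u) (_ : PartialOrder T), IsFreeSuslinTree T) ∧
    ((∃ (T : Type u) (_ : PartialOrder T), IsFreeSuslinTree T) →
      ∃ (X : Type u) (_ : TopologicalSpace X), T35Space X ∧ Sfin (DOmega X) (DOmega X) ∧
        ∀ I : Type v, Nontrivial I → ¬ Sfin (DOmega (I → X)) (DOmega (I → X))) ∧
    (∀ (X : Type u) [TopologicalSpace X], Sfin (DOmega X) (DOmega X) →
      (Ccc (Fin 2 → X) → ∀ I : Type v, Sfin (DOmega (I → X)) (DOmega (I → X))) ∧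
      ∀ I : Type v, Nontrivial I → Sfin (DOmega (I → X)) (DOmega (I → X)) → Ccc (Fin 2 → X)) ∧
    ∀ (X : Type u) [TopologicalSpace X], Nonempty X → ∀ I : Type v, Infinite I →
      (Sfin (DFam (I → X)) (DFam (I → X)) ↔ Sfin (DOmega X) (DOmega X) ∧ Ccc (Fin 2 → X)) ∧
      (Sfin (DFam (I → X)) (DFam (I → X)) ↔ ∀ k : ℕ, Sfin (DFam (Fin k → X)) (DFam (Fin k → X))) := by
  have h1 : ∀ (X : Type u) [TopologicalSpace X], Sfin (DOmega X) (DOmega X) →
      Ccc (Fin 2 → X) → ∀ I : Type v, Sfin (DOmega (I → X)) (DOmega (I → X)) ∧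
        (Nonempty X → Sfin (DFam (I → X)) (DFam (I → X))) := by
    intro X _ hX hc I
    have h := main (selP_false.mp hX) (fun hb => sel_fin_Sfin (selP_false.mp hX) hb) hc I
    exact ⟨selP_false.mpr h.1, fun hN => selP_false.mpr (h.2 hN)⟩
  have h2 : ∀ (X : Type u) [TopologicalSpace X], ∀ I : Type v, Nontrivial I →
      Sfin (DOmega (I → X)) (DOmega (I → X)) → Ccc (Fin 2 → X) :=
    fun X _ I _ h => ccc_two (ccc_of_DOmega h)
  have h3 : (¬ ∃ (T : Type u) (_ : PartialOrder T), IsFreeSuslinTree T) →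
      ∀ (X : Type u) [TopologicalSpace X], Sfin (DOmega X) (DOmega X) →
        (∀ k : ℕ, Sfin (DOmega (Fin k → X)) (DOmega (Fin k → X))) ∧
        ∀ I : Type v, Sfin (DOmega (I → X)) (DOmega (I → X)) := by
    intro hno X _ hX
    have hk := fun k => pos_Sfin hX (not_bad hX hno) k
    exact ⟨hk, fun I => (h1 X hX (ccc_of_DOmega (hk 2)) I).1⟩
  have h4 : (∃ (T : Type u) (_ : PartialOrder T), IsFreeSuslinTree T) →
      ∃ (X : Type u) (_ : TopologicalSpace X), T35Space X ∧ Sfin (DOmega X) (DOmega X) ∧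
        ¬ Ccc (Fin 2 → X) := by
    intro hT
    obtain ⟨X, i, hX, hS, hn⟩ := counter hT
    refine ⟨X, i, hX, hS.toSfin, fun hc => hn ?_⟩
    have := main (ι := Fin 2) (selP_true.mp hS) (fun hb => sel_fin_S1 (selP_true.mp hS) hb) hc
    exact (selP_true.mpr this.1).toSfin
  refine ⟨⟨fun h hT => ?_, fun hno X _ hX k _ => (h3 hno X hX).1 k⟩,
    ⟨fun h hT => ?_, fun hno X _ hX => (h3 hno X hX).2⟩, fun hT => ?_,
    fun X _ hX => ⟨fun hc I => (h1 X hX hc I).1, fun I hI h => h2 X I hI h⟩, fun X _ hN I hI => ?_⟩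
  · obtain ⟨X, _, _, hS, hn⟩ := h4 hT
    exact hn (ccc_of_DOmega (h X hS 2 one_le_two))
  · obtain ⟨X, _, _, hS, hn⟩ := h4 hT
    exact hn (h2 X (ULift.{v} (Fin 2)) inferInstance (h X hS _))
  · obtain ⟨X, i, h35, hS, hn⟩ := h4 hT
    exact ⟨X, i, h35, hS, fun I hI h => hn (h2 X I hI h)⟩
  · have hdown : Sfin (DFam (I → X)) (DFam (I → X)) →
        ∀ k : ℕ, Sfin (DFam (Fin k → X)) (DFam (Fin k → X)) :=
      fun h k => selP_false.mpr (sel_down (selP_false.mp h) k)
    have hfin : (∀ k : ℕ, Sfin (DFam (Fin k → X)) (DFam (Fin k → X))) →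
        Sfin (DOmega X) (DOmega X) ∧ Ccc (Fin 2 → X) := by
      intro h
      exact ⟨selP_false.mpr (sel_up fun r => selP_false.mp (h r)), ccc_of_DFam (h 2)⟩
    have hup : Sfin (DOmega X) (DOmega X) ∧ Ccc (Fin 2 → X) → Sfin (DFam (I → X)) (DFam (I → X)) :=
      fun h => (h1 X h.1 h.2 I).2 hN
    exact ⟨⟨fun h => hfin (hdown h), hup⟩, ⟨hdown, fun h => hup (hfin h)⟩⟩

end Pool.Agent.Results.MP_9098dd_gt.AllPowersFin
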